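import Pool.Agent.Helper94.FAP.F17

/-!
# The forcing axiom for proper aleph-2-c.c. posets at aleph-2 fails

There are a nonempty proper poset with the aleph-2 chain condition and a family of at most aleph-2
dense subsets of it such that no filter meets all of them.
-/

open Cardinal

universe u v

namespace Pool.Agent.Results.MP_880574_lc.ForcingAxiomFails

theorem result : ∃ (P : Type u) (_ : PartialOrder P), Nonempty P ∧ FAP.IsProper.{u, v} P ∧
    FAP.Aleph2CC P ∧ ∃ DD : Set (Set P), #DD ≤ ℵ_ 2 ∧ (∀ D ∈ DD, FAP.IsDense D) ∧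
      ¬ ∃ G : Set P, FAP.IsFilter G ∧ ∀ D ∈ DD, (G ∩ D).Nonempty := by
  by_contra hcon
  apply FAP.not_FA.{u, v}
  intro P iP hne hproper hcc ι D hι hD
  by_contra hG
  apply hcon
  refine ⟨P, iP, hne, hproper, hcc, Set.range D, mk_range_le.trans hι, ?_, ?_⟩
  · rintro _ ⟨k, rfl⟩
    exact hD k
  · rintro ⟨G, hG1, hG2⟩
    exact hG ⟨G, hG1, fun k => hG2 (D k) ⟨k, rfl⟩⟩

end Pool.Agent.Results.MP_880574_lc.ForcingAxiomFails
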